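import Pool.Agent.H97.RK.Targets

/-!
# Module MED: a line of medium strength
-/

set_option autoImplicit false

open Finset Pool.Agent.H97.RK

namespace Pool.Agent.H4.RKS

/-- some assignment which agrees with `y` on `A` falsifies the clause `L` and satisfies the
clauses of `J'` -/
def G {n k m : ℕ} (F : Fml n k m) (y : Fin n → Bool) (A : Finset (Fin n)) (L : Clause n)
    (J' : Finset (Fin m)) : Prop :=
  ∃ z : Fin n → Bool, (∀ u ∈ A, z u = y u) ∧ Falsified L z ∧ ∀ c ∈ J', Sa F z univ c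

theorem exmin {n k m : ℕ} (F : Fml n k m) (y : Fin n → Bool) (A : Finset (Fin n)) (L : Clause n)
    (N : ℕ) (h : ¬ ∀ J' : Finset (Fin m), J'.card ≤ N → G F y A L J') :
    ∃ J' : Finset (Fin m), J'.card ≤ N ∧ ¬ G F y A L J' ∧
      ∀ J'' : Finset (Fin m), J''.card < J'.card → G F y A L J'' := by
  classical
  push Not at h
  obtain ⟨J0, h0, h1⟩ := h
  have hex : ∃ q : ℕ, ∃ J' : Finset (Fin m), J'.card = q ∧ ¬ G F y A L J' := ⟨_, J0, rfl, h1⟩
  obtain ⟨J', e1, e2⟩ := Nat.find_spec hex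
  refine ⟨J', ?_, e2, fun J'' hJ'' => ?_⟩
  · rw [e1]
    exact (Nat.find_le ⟨J0, rfl, h1⟩).trans h0
  · by_contra hc
    exact Nat.find_min hex (e1 ▸ hJ'') ⟨J'', rfl, hc⟩

theorem med_core {n k m : ℕ} (F : Fml n k m) {j t d e s₀ : ℕ} (hP : Par F j t d e s₀)
    (hTRS : T_TRS) (y : Fin n → Bool) (A : Finset (Fin n)) (L : Clause n) (Js : Finset (Fin m))
    (h1 : t < Js.card) (h2 : Js.card ≤ 2 * t) (h3 : ¬ G F y A L Js)
    (h4 : ∀ J'' : Finset (Fin m), J''.card < Js.card → G F y A L J'') :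
    ∃ z : Fin n → Bool, (∀ u ∈ A, z u = y u) ∧ Falsified L z ∧
      n ≤ (A ∪ vs L).card + (d + 2 * t) := by
  classical
  obtain ⟨z0, hz1, hz2, -⟩ := h4 ∅ (by rw [card_empty]; omega)
  refine ⟨z0, hz1, hz2, ?_⟩
  obtain ⟨T, hT⟩ : ∃ T : Finset (Fin n), T = A ∪ vs L := ⟨_, rfl⟩
  rw [← hT]
  have hmem : ∀ l ∈ L, l.1 ∈ T := fun l hl => by
    rw [hT]
    exact mem_union_right _ (mem_image_of_mem _ hl)
  have hGO : ∀ J' : Finset (Fin m), G F y A L J' ↔ Ok F z0 T J' := by
    intro J'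
    constructor
    · rintro ⟨z, a1, a2, a3⟩
      refine ⟨z, fun u hu => ?_, a3⟩
      rw [hT] at hu
      rcases mem_union.1 hu with hu | hu
      · rw [a1 u hu, hz1 u hu]
      · obtain ⟨l, hl, rfl⟩ := mem_image.1 hu
        have b1 := a2 l hl
        have b2 := hz2 l hl
        revert b1 b2
        cases z l.1 <;> cases z0 l.1 <;> cases l.2 <;> simp
    · rintro ⟨z, a1, a2⟩
      refine ⟨z, fun u hu => ?_, fun l hl => ?_, a2⟩
      · rw [a1 u (by rw [hT]; exact mem_union_left _ hu), hz1 u hu]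
      · rw [a1 l.1 (hmem l hl)]
        exact hz2 l hl
  obtain ⟨c1, c2⟩ := hTRS n k m F z0 T Js (fun h => h3 ((hGO _).2 h))
    (fun J' hJ' => (hGO _).1 (h4 J' (card_lt_card hJ')))
  obtain ⟨U, hU⟩ : ∃ U : Finset (Fin n),
    U = (Js.biUnion fun c => univ.image fun i => (F c i).1) \ T := ⟨_, rfl⟩
  rw [← hU] at c2
  by_contra hn
  have hx := hP.x2 z0 T U (by rw [hU]; exact disjoint_sdiff) (by have := hP.te; omega) (by omega)
  have hsub : Js ⊆ univ.filter fun c => (∀ i, (F c i).1 ∈ T ∪ U) ∧ Al F z0 T c := by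
    intro c hc
    refine mem_filter.2 ⟨mem_univ _, fun i => ?_, c1 c hc⟩
    by_cases hi : (F c i).1 ∈ T
    · exact mem_union_left _ hi
    · refine mem_union_right _ ?_
      rw [hU]
      exact mem_sdiff.2 ⟨mem_biUnion.2 ⟨c, hc, mem_image_of_mem _ (mem_univ i)⟩, hi⟩
  have := card_le_card hsub
  omega

theorem pf_MED (hFIX : T_FIX) (hTRS : T_TRS) : T_MED := by
  classical
  intro n k m F j t d e s₀ hP S r line rule hR y A W J hSt
  obtain ⟨hr, hr0, hC⟩ := hR
  rcases Nat.eq_zero_or_pos n with hn | hn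
  · subst hn
    refine ⟨r, hr, y, fun _ _ => rfl, fun l hl => ?_, Nat.zero_le _⟩
    rw [hr0] at hl
    exact absurd hl (notMem_empty l)
  have hQr : ∀ J' : Finset (Fin m), J'.card ≤ 2 * t → G F y A (line r) J' := by
    intro J' hJ'
    obtain ⟨y', a1, a2, -⟩ := hFIX n k m F j s₀ hP.x1 y (A ∪ W) ⟨0, hn⟩
      (J'.filter fun c => Al F y A c ∧ c ∉ J)
      ((card_filter_le _ _).trans (hJ'.trans hP.ts)) (fun c hc => by
        obtain ⟨-, b1, b2⟩ := mem_filter.1 hc
        refine (hSt.out c b2 b1).trans_le (card_le_card ?_)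
        intro i hi
        obtain ⟨-, hi⟩ := mem_filter.1 hi
        exact mem_filter.2 ⟨mem_univ _, fun h => hi (mem_of_mem_erase h)⟩)
    refine ⟨y', fun u hu => a1 u (mem_union_left _ hu), fun l hl => ?_, fun c hc => ?_⟩
    · rw [hr0] at hl
      exact absurd hl (notMem_empty l)
    · by_cases hcJ : c ∈ J
      · obtain ⟨i, hi, hi2⟩ := hSt.sat c hcJ
        exact ⟨i, mem_univ _, by rw [a1 _ hi, hi2]⟩
      · by_cases hcA : Al F y A c
        · obtain ⟨i, -, hi⟩ := a2 c (mem_filter.2 ⟨hc, hcA, hcJ⟩)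
          exact ⟨i, mem_univ _, hi⟩
        · unfold Al at hcA
          push Not at hcA
          obtain ⟨i, hi, hi2⟩ := hcA
          exact ⟨i, mem_univ _, by rw [a1 _ (mem_union_left _ hi), hi2]⟩
  have hex : ∃ i, ∀ J' : Finset (Fin m), J'.card ≤ 2 * t → G F y A (line i) J' := ⟨r, hQr⟩
  obtain ⟨i, hi⟩ : ∃ i, i = Nat.find hex := ⟨_, rfl⟩
  have hQi := Nat.find_spec hex
  have hmin : ∀ a, a < i → ¬ ∀ J' : Finset (Fin m), J'.card ≤ 2 * t → G F y A (line a) J' := by
    intro a ha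
    rw [hi] at ha
    exact Nat.find_min hex ha
  have hir : i ≤ r := by
    rw [hi]
    exact Nat.find_le hQr
  rw [← hi] at hQi
  have hiS : i < S := by omega
  have hcor := hC i hiS
  cases hrule : rule i with
  | ax =>
    rw [hrule] at hcor
    obtain ⟨c, hc⟩ := hcor
    obtain ⟨z, -, b2, b3⟩ := hQi {c} (by rw [card_singleton]; have := hP.t1; omega)
    obtain ⟨i0, -, hi0⟩ := b3 c (mem_singleton_self c)
    exact absurd hi0 (b2 (F c i0) (hc (mem_image_of_mem _ (mem_univ i0))))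
  | weak a =>
    rw [hrule] at hcor
    obtain ⟨ha, hsub⟩ := hcor
    exfalso
    refine hmin a ha fun J' hJ' => ?_
    obtain ⟨z, b1, b2, b3⟩ := hQi J' hJ'
    exact ⟨z, b1, fun l hl => b2 l (hsub hl), b3⟩
  | res x a b =>
    rw [hrule] at hcor
    obtain ⟨ha, hb, hsa, hsb⟩ := hcor
    obtain ⟨Ja, ja1, ja2, ja3⟩ := exmin F y A (line a) (2 * t) (hmin a ha)
    obtain ⟨Jb, jb1, jb2, jb3⟩ := exmin F y A (line b) (2 * t) (hmin b hb)
    by_cases hab : Ja.card + Jb.card ≤ 2 * t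
    · exfalso
      obtain ⟨z, b1, b2, b3⟩ := hQi (Ja ∪ Jb) ((card_union_le _ _).trans hab)
      cases hzx : z x with
      | false =>
        refine ja2 ⟨z, b1, fun l hl => ?_, fun c hc => b3 c (mem_union_left _ hc)⟩
        rcases mem_insert.1 (hsa hl) with h | h
        · rw [h, hzx]
          exact Bool.false_ne_true
        · exact b2 l h
      | true =>
        refine jb2 ⟨z, b1, fun l hl => ?_, fun c hc => b3 c (mem_union_right _ hc)⟩
        rcases mem_insert.1 (hsb hl) with h | h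
        · rw [h, hzx]
          exact Bool.false_ne_true.symm
        · exact b2 l h
    · rcases Nat.lt_or_ge t Ja.card with h | h
      · obtain ⟨z, c1, c2, c3⟩ := med_core F hP hTRS y A (line a) Ja h ja1 ja2 ja3
        exact ⟨a, by omega, z, c1, c2, c3⟩
      · obtain ⟨z, c1, c2, c3⟩ := med_core F hP hTRS y A (line b) Jb (by omega) jb1 jb2 jb3
        exact ⟨b, by omega, z, c1, c2, c3⟩

end Pool.Agent.H4.RKS
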